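import Pool.Agent.Helper242.RM.Fin2

/-!
# Ruelle–Mayer operators: the sign of every eigenvalue
-/

set_option autoImplicit false

namespace Pool.Agent.Results.MP_d977c2_an.SignsAlternate

open Module Module.End

/-- The closed disc `|z - 1| ≤ 3/2`, the closure of `Δ`. -/
abbrev Disc : Set ℂ := Metric.closedBall (1 : ℂ) (3 / 2)

open Classical in
/-- Extension by zero to `ℂ` of a function on the closed disc. -/
noncomputable def ext (f : C(Disc, ℂ)) : ℂ → ℂ := fun z => if h : z ∈ Disc then f ⟨z, h⟩ else 0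

/-- The function `f` on the closed disc is holomorphic in the open disc `Δ`. -/
def IsHolo (f : C(Disc, ℂ)) : Prop := DifferentiableOn ℂ (ext f) (Metric.ball (1 : ℂ) (3 / 2))

lemma ext_add (f g : C(Disc, ℂ)) : ext (f + g) = ext f + ext g := by
  funext z
  by_cases h : z ∈ Disc <;> simp [ext, h]

lemma ext_zero : ext (0 : C(Disc, ℂ)) = fun _ => 0 := by
  funext z
  by_cases h : z ∈ Disc <;> simp [ext, h]

lemma ext_smul (c : ℂ) (f : C(Disc, ℂ)) : ext (c • f) = c • ext f := by
  funext z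
  by_cases h : z ∈ Disc <;> simp [ext, h]

lemma isHolo_add {f g : C(Disc, ℂ)} (hf : IsHolo f) (hg : IsHolo g) : IsHolo (f + g) := by
  unfold IsHolo
  rw [ext_add]
  exact hf.add hg

lemma isHolo_zero : IsHolo 0 := by
  unfold IsHolo
  rw [ext_zero]
  exact differentiableOn_const 0

lemma isHolo_smul (c : ℂ) {f : C(Disc, ℂ)} (hf : IsHolo f) : IsHolo (c • f) := by
  unfold IsHolo
  rw [ext_smul]
  exact hf.const_smul c

/-- The continuous functions on the closed disc which are holomorphic in the open disc `Δ` form a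
linear subspace of the continuous functions. -/
noncomputable def XSub : Submodule ℂ C(Disc, ℂ) where
  carrier := {f | IsHolo f}
  add_mem' := isHolo_add
  zero_mem' := isHolo_zero
  smul_mem' := isHolo_smul

/-- The space `X` of the problem: the continuous functions on the closed disc which are holomorphic
in the open disc `Δ`. -/
def X : Type := {f : C(Disc, ℂ) // IsHolo f}

/-- The linear structure of `X` is the pointwise one. -/
noncomputable instance instAddCommGroupX : AddCommGroup X := Submodule.addCommGroup XSub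

/-- The linear structure of `X` is the pointwise one. -/
noncomputable instance instModuleX : Module ℂ X := Submodule.module XSub

/-- The value `(G_s f)(z) = ∑_{n ≥ 1} (z+n)^{-s} f(1/(z+n))` (the index is shifted by one; the
power is the principal one, and `1/(z+n)` lies in the disc for every `z` in the disc). -/
noncomputable def Gval (s : ℝ) (f : C(Disc, ℂ)) (z : ℂ) : ℂ :=
  ∑' n : ℕ, (z + ((n : ℂ) + 1)) ^ (-(s : ℂ)) * ext f (z + ((n : ℂ) + 1))⁻¹

/-- Sanity: the points at which `f` is evaluated lie in the disc, and the series converges. -/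
lemma sanity (s : ℝ) (hs : 1 < s) (f : C(Disc, ℂ)) (z : ℂ) (hz : z ∈ Disc) :
    (∀ n : ℕ, (z + ((n : ℂ) + 1))⁻¹ ∈ Disc) ∧
    Summable (fun n : ℕ => (z + ((n : ℂ) + 1)) ^ (-(s : ℂ)) * ext f (z + ((n : ℂ) + 1))⁻¹) :=
  ⟨Pool.Agent.Helper242.RM.gv_inv_mem z hz, Pool.Agent.Helper242.RM.gv_term_summable s hs f z hz⟩

lemma continuous_Gval (s : ℝ) (hs : 1 < s) (f : X) :
    Continuous (fun z : Disc => Gval s f.1 z) :=
  Pool.Agent.Helper242.RM.Gval_continuous s hs f

/-- The function `G_s f` on the closed disc. -/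
noncomputable def GC (s : ℝ) (hs : 1 < s) (f : X) : C(Disc, ℂ) :=
  ⟨fun z : Disc => Gval s f.1 z, continuous_Gval s hs f⟩

lemma isHolo_GC (s : ℝ) (hs : 1 < s) (f : X) : IsHolo (GC s hs f) :=
  (Pool.Agent.Helper242.RM.G s hs f).2

/-- The operator `G_s : X → X` as a map. -/
noncomputable def Gfun (s : ℝ) (hs : 1 < s) (f : X) : X := ⟨GC s hs f, isHolo_GC s hs f⟩

lemma Gfun_add (s : ℝ) (hs : 1 < s) (f g : X) : Gfun s hs (f + g) = Gfun s hs f + Gfun s hs g :=
  (Pool.Agent.Helper242.RM.G s hs).map_add f g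

lemma Gfun_smul (s : ℝ) (hs : 1 < s) (c : ℂ) (f : X) : Gfun s hs (c • f) = c • Gfun s hs f :=
  (Pool.Agent.Helper242.RM.G s hs).map_smul c f

/-- The operator `G_s : X → X`, `s > 1`, as a linear map. -/
noncomputable def G (s : ℝ) (hs : 1 < s) : Module.End ℂ X where
  toFun := Gfun s hs
  map_add' := Gfun_add s hs
  map_smul' := Gfun_smul s hs

/-- Sanity: `(G_s f)(z) = ∑_{n ≥ 1} (z+n)^{-s} f(1/(z+n))` for `z` in the closed disc. -/
lemma G_apply (s : ℝ) (hs : 1 < s) (f : X) (z : Disc) :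
    (G s hs f).1 z = ∑' n : ℕ, ((z : ℂ) + ((n : ℂ) + 1)) ^ (-(s : ℂ)) *
      f.1 ⟨((z : ℂ) + ((n : ℂ) + 1))⁻¹, (sanity s hs f.1 z z.2).1 n⟩ := by
  change Gval s f.1 z = _
  unfold Gval
  refine tsum_congr fun n => ?_
  rw [ext, dif_pos]

/-- `μ` is an eigenvalue of `G_s : X → X`. -/
def IsEigenvalue (s : ℝ) (hs : 1 < s) (μ : ℂ) : Prop := HasEigenvalue (G s hs) μ

/-- The algebraic multiplicity of `μ` as an eigenvalue of `G_s`: the dimension of the generalised
eigenspace. -/
noncomputable def algMult (s : ℝ) (hs : 1 < s) (μ : ℂ) : ℕ := finrank ℂ (maxGenEigenspace (G s hs) μ)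

/-- The list `λ_1(s), λ_2(s), …` of the problem: `lam 1, lam 2, lam 3, …` lists the nonzero
eigenvalues of `G_s : X → X`, each repeated according to its algebraic multiplicity, by
nonincreasing modulus. -/
structure IsEigenvalueList (s : ℝ) (hs : 1 < s) (lam : ℕ+ → ℂ) : Prop where
  /-- the entries are nonzero -/
  ne_zero : ∀ j, lam j ≠ 0
  /-- the entries are eigenvalues -/
  isEigenvalue : ∀ j, IsEigenvalue s hs (lam j)
  /-- each nonzero value occurs finitely often -/
  finite : ∀ μ : ℂ, μ ≠ 0 → {j | lam j = μ}.Finite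
  /-- each nonzero eigenvalue occurs as often as its algebraic multiplicity -/
  card : ∀ μ : ℂ, μ ≠ 0 → IsEigenvalue s hs μ → {j | lam j = μ}.ncard = algMult s hs μ
  /-- the moduli are nonincreasing -/
  antitone : ∀ i j, i ≤ j → ‖lam j‖ ≤ ‖lam i‖

lemma isEigenvalueList_iff (s : ℝ) (hs : 1 < s) (lam : ℕ+ → ℂ) :
    IsEigenvalueList s hs lam ↔ Pool.Agent.Helper242.RM.IsEigenvalueList s hs lam :=
  ⟨fun h => ⟨h.1, h.2, h.3, h.4, h.5⟩, fun h => ⟨h.1, h.2, h.3, h.4, h.5⟩⟩

/-- For every `s > 1` the list `λ_1(s), λ_2(s), …` of the nonzero eigenvalues of `G_s` (it exists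
and is infinite) satisfies: `λ_j(s)` is real and has the sign of `(-1)^(j+1)`, for every `j ≥ 1`. -/
theorem result (s : ℝ) (hs : 1 < s) :
    (∃ lam : ℕ+ → ℂ, IsEigenvalueList s hs lam) ∧
    ∀ lam : ℕ+ → ℂ, IsEigenvalueList s hs lam → ∀ j : ℕ+,
      ∃ x : ℝ, lam j = (x : ℂ) ∧ 0 < (-1 : ℝ) ^ ((j : ℕ) + 1) * x := by
  refine ⟨?_, ?_⟩
  · obtain ⟨lam, h⟩ := Pool.Agent.Helper242.RM.exists_list s hs
    exact ⟨lam, (isEigenvalueList_iff s hs lam).2 h⟩
  · intro lam h j
    exact Pool.Agent.Helper242.RM.list_sign s hs lam ((isEigenvalueList_iff s hs lam).1 h) j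

end Pool.Agent.Results.MP_d977c2_an.SignsAlternate
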